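import Mathlib
import Pool.Agent.W662.KKS.Stmts
import Pool.Agent.W663.KK.Mean

set_option autoImplicit false
set_option linter.unusedSectionVars false

open scoped InnerProductSpace Topology
open Filter
open Pool.Agent.Helper278

namespace Pool.Agent.W475.KKS

open Pool.Agent.W662.KKS

section basics

variable {H : Type} [NormedAddCommGroup H] [InnerProductSpace ℂ H] [CompleteSpace H]

theorem dc_expand (ξ : H) (ρ : (H →L[ℂ] H) → (H →L[ℂ] H)) (S x a : H →L[ℂ] H) :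
    dc ξ ρ S x a = S (x (a ξ)) - x (S (a ξ)) - ρ a (S (x ξ)) + ρ a (x (S ξ)) := by
  unfold dc
  show S (x (a ξ)) - x (S (a ξ)) - ρ a (S (x ξ) - x (S ξ)) = _
  rw [map_sub]; abel

theorem dc_smul (ξ : H) (ρ : (H →L[ℂ] H) → (H →L[ℂ] H)) (z : ℂ) (S x a : H →L[ℂ] H) :
    dc ξ ρ (z • S) x a = z • dc ξ ρ S x a := by
  rw [dc_expand, dc_expand]
  simp only [smul_apply, map_smul, smul_sub, smul_add]

theorem dc_sum {ι : Type} (ξ : H) (ρ : (H →L[ℂ] H) → (H →L[ℂ] H)) (s : Finset ι)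
    (S : ι → (H →L[ℂ] H)) (x a : H →L[ℂ] H) :
    dc ξ ρ (∑ i ∈ s, S i) x a = ∑ i ∈ s, dc ξ ρ (S i) x a := by
  rw [dc_expand]
  simp only [dc_expand, ContinuousLinearMap.sum_apply, map_sum, Finset.sum_add_distrib,
    Finset.sum_sub_distrib]

/-- norm of an average -/
theorem avg_norm {ι E : Type} [NormedAddCommGroup E] [NormedSpace ℂ E] (s : Finset ι)
    (hs : s.Nonempty) (f : ι → E) (C : ℝ) (hf : ∀ i ∈ s, ‖f i‖ ≤ C) :
    ‖((s.card : ℂ))⁻¹ • ∑ i ∈ s, f i‖ ≤ C := by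
  have hc : (0 : ℝ) < s.card := by exact_mod_cast hs.card_pos
  rw [norm_smul, norm_inv, Complex.norm_natCast, inv_mul_le_iff₀ hc]
  calc ‖∑ i ∈ s, f i‖ ≤ ∑ i ∈ s, ‖f i‖ := norm_sum_le _ _
    _ ≤ ∑ i ∈ s, C := Finset.sum_le_sum hf
    _ = s.card * C := by rw [Finset.sum_const, nsmul_eq_mul]

theorem avg_const {ι E : Type} [NormedAddCommGroup E] [NormedSpace ℂ E] (s : Finset ι)
    (hs : s.Nonempty) (v : E) : ((s.card : ℂ))⁻¹ • ∑ _i ∈ s, v = v := by
  have hc : (s.card : ℂ) ≠ 0 := by exact_mod_cast hs.card_pos.ne'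
  rw [Finset.sum_const, ← Nat.cast_smul_eq_nsmul ℂ, smul_smul, inv_mul_cancel₀ hc, one_smul]

/-- norm bound of weak limits of vectors -/
theorem wlim_norm {I : Type} (U : Ultrafilter I) (y : I → H) (z : H) (C : ℝ)
    (hy : ∀ v : H, Tendsto (fun i => ⟪v, y i⟫_ℂ) U (𝓝 ⟪v, z⟫_ℂ)) (hC : ∀ i, ‖y i‖ ≤ C) :
    ‖z‖ ≤ C := by
  have h1 : ‖⟪z, z⟫_ℂ‖ ≤ ‖z‖ * C := by
    refine le_of_tendsto (hy z).norm (Eventually.of_forall fun i => ?_)
    exact (norm_inner_le_norm _ _).trans (mul_le_mul_of_nonneg_left (hC i) (norm_nonneg _))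
  rw [inner_self_eq_norm_sq_to_K] at h1
  have h2 : ‖z‖ ^ 2 ≤ ‖z‖ * C := by simpa using h1
  rcases (norm_nonneg z).eq_or_lt with h0 | h0
  · rw [← h0]
    rcases U.nonempty_of_mem univ_mem with ⟨i, _⟩
    exact (norm_nonneg _).trans (hC i)
  · have h3 : ‖z‖ * ‖z‖ ≤ ‖z‖ * C := by nlinarith
    exact le_of_mul_le_mul_left h3 h0

theorem norm_uni_apply {u : H →L[ℂ] H} (h : star u * u = 1) (v : H) : ‖u v‖ = ‖v‖ := by
  have h1 : ⟪u v, u v⟫_ℂ = ⟪v, v⟫_ℂ := by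
    rw [← ContinuousLinearMap.adjoint_inner_right, ← ContinuousLinearMap.star_eq_adjoint]
    show ⟪v, (star u * u) v⟫_ℂ = _
    rw [h]; rfl
  rw [inner_self_eq_norm_sq_to_K, inner_self_eq_norm_sq_to_K] at h1
  have h2 : ‖u v‖ ^ 2 = ‖v‖ ^ 2 := by exact_mod_cast h1
  exact (sq_eq_sq₀ (norm_nonneg _) (norm_nonneg _)).1 h2

theorem norm_uni_le {u : H →L[ℂ] H} (h : star u * u = 1) : ‖u‖ ≤ 1 :=
  ContinuousLinearMap.opNorm_le_bound _ zero_le_one fun v => by
    rw [norm_uni_apply h, one_mul]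

theorem norm_one_le' : ‖(1 : H →L[ℂ] H)‖ ≤ 1 :=
  ContinuousLinearMap.norm_id_le

/-- bimodule data for one operator -/
def Good (M : VonNeumannAlgebra H) (ξ : H) (ρ : (H →L[ℂ] H) → (H →L[ℂ] H))
    (c : (H →L[ℂ] H) → (H →L[ℂ] H) → H) (e : ℝ) (S : H →L[ℂ] H) : Prop :=
  ∀ x ∈ M, ∀ a ∈ M, ‖c x a + dc ξ ρ S x a‖ ≤ e * ‖x‖ * ‖a‖

variable {M : VonNeumannAlgebra H} {ξ : H} {ρ : (H →L[ℂ] H) → (H →L[ℂ] H)}
  {G : ℕ → Finset (H →L[ℂ] H)} {c : (H →L[ℂ] H) → (H →L[ℂ] H) → H}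

theorem rho_uni (hS : Std M ξ ρ) {v : H →L[ℂ] H} (hv : v ∈ M) (h2 : v * star v = 1) :
    star (ρ v) * ρ v = 1 := by
  rw [← hS.stm v hv, ← hS.mul v hv _ (star_mem hv), h2, hS.one]

theorem rho_uni' (hS : Std M ξ ρ) {v : H →L[ℂ] H} (hv : v ∈ M) (h2 : star v * v = 1) :
    ρ v * star (ρ v) = 1 := by
  rw [← hS.stm v hv, ← hS.mul _ (star_mem hv) v hv, h2, hS.one]

theorem rho_apply (hS : Std M ξ ρ) {v a : H →L[ℂ] H} (hv : v ∈ M) (ha : a ∈ M) :
    ρ v (a ξ) = (a * v) ξ := by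
  show (ρ v * a) ξ = _
  rw [hS.comm v hv a ha]
  show a (ρ v ξ) = a (v ξ)
  rw [hS.vec v hv]

/-- conjugation by the commutant -/
theorem good_right (hS : Std M ξ ρ) (hG : LFG M ξ G) {ε e : ℝ} (hε : 0 ≤ ε)
    (hCM : CM M ρ G c ε) (hc1 : ∀ x ∈ M, c x 1 = 0) {S : H →L[ℂ] H} (he : 0 ≤ e)
    (h : Good M ξ ρ c e S) {n : ℕ} {v : H →L[ℂ] H} (hv : v ∈ G n) :
    Good M ξ ρ c (2 * e + 2 * ε) (star (ρ v) * S * ρ v) := by
  intro x hx a ha
  have hvM := hG.mem n v hv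
  have hsu := hG.su n v hv
  have hus := hG.us n v hv
  have r1 := rho_uni hS hvM hus
  have r2 := rho_uni' hS hvM hsu
  have hvn : ‖v‖ ≤ 1 := norm_uni_le hsu
  have hav : a * v ∈ M := mul_mem ha hvM
  have hstar : star (star (ρ v)) * star (ρ v) = 1 := by rw [star_star, r2]
  have hcs : star (ρ v) * x = x * star (ρ v) := by
    rw [← hS.stm v hvM]; exact hS.comm _ (star_mem hvM) x hx
  have key : dc ξ ρ (star (ρ v) * S * ρ v) x a =
      star (ρ v) (dc ξ ρ S x (a * v)) - ρ a (star (ρ v) (dc ξ ρ S x v)) := by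
    have e1 : ρ v (x (a ξ)) = x ((a * v) ξ) := by
      have := rho_apply hS hvM (mul_mem hx ha)
      exact this
    have e2 : ρ v (a ξ) = (a * v) ξ := rho_apply hS hvM ha
    have e3 : ρ v (x ξ) = x (v ξ) := rho_apply hS hvM hx
    have e4 : ρ v ξ = v ξ := hS.vec v hvM
    have e5 : ∀ w, star (ρ v) (x w) = x (star (ρ v) w) := fun w => congrArg (fun T => T w) hcs
    have e6 : ∀ w, ρ (a * v) w = ρ v (ρ a w) := fun w => by rw [hS.mul a ha v hvM]; rfl
    have e7 : ∀ w, star (ρ v) (ρ v w) = w := fun w => by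
      have := congrArg (fun T : H →L[ℂ] H => T w) r1
      exact this
    rw [dc_expand, dc_expand, dc_expand]
    show star (ρ v) (S (ρ v (x (a ξ)))) - x (star (ρ v) (S (ρ v (a ξ)))) -
        ρ a (star (ρ v) (S (ρ v (x ξ)))) + ρ a (x (star (ρ v) (S (ρ v ξ)))) = _
    rw [e1, e2, e3, e4]
    simp only [map_sub, map_add, e5, e6, e7]
    abel
  have b1 : ‖dc ξ ρ S x (a * v) + ρ v (c x a)‖ ≤ (e + ε) * ‖x‖ * ‖a‖ := by
    have h1 := h x hx (a * v) hav
    have h2 := hCM.right n v hv x hx a ha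
    have h3 : ‖a * v‖ ≤ ‖a‖ := (norm_mul_le _ _).trans (by
      calc ‖a‖ * ‖v‖ ≤ ‖a‖ * 1 := mul_le_mul_of_nonneg_left hvn (norm_nonneg _)
        _ = ‖a‖ := mul_one _)
    have h4 : dc ξ ρ S x (a * v) + ρ v (c x a) =
        (c x (a * v) + dc ξ ρ S x (a * v)) - (c x (a * v) - ρ v (c x a)) := by abel
    rw [h4]
    refine (norm_sub_le _ _).trans ?_
    have h5 : e * ‖x‖ * ‖a * v‖ ≤ e * ‖x‖ * ‖a‖ :=
      mul_le_mul_of_nonneg_left h3 (mul_nonneg he (norm_nonneg _))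
    linarith
  have b2 : ‖dc ξ ρ S x v‖ ≤ (e + ε) * ‖x‖ := by
    have h1 := h x hx v hvM
    have h2 := hCM.right n v hv x hx 1 (one_mem _)
    rw [one_mul, hc1 x hx, map_zero, sub_zero] at h2
    have h4 : dc ξ ρ S x v = (c x v + dc ξ ρ S x v) - c x v := by abel
    rw [h4]
    refine (norm_sub_le _ _).trans ?_
    have h5 : e * ‖x‖ * ‖v‖ ≤ e * ‖x‖ * 1 :=
      mul_le_mul_of_nonneg_left hvn (mul_nonneg he (norm_nonneg _))
    have h6 : ε * ‖x‖ * ‖(1 : H →L[ℂ] H)‖ ≤ ε * ‖x‖ * 1 :=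
      mul_le_mul_of_nonneg_left norm_one_le' (mul_nonneg hε (norm_nonneg _))
    linarith
  have e8 : star (ρ v) (ρ v (c x a)) = c x a := congrArg (fun T : H →L[ℂ] H => T (c x a)) r1
  have h4 : c x a + dc ξ ρ (star (ρ v) * S * ρ v) x a =
      star (ρ v) (dc ξ ρ S x (a * v) + ρ v (c x a)) - ρ a (star (ρ v) (dc ξ ρ S x v)) := by
    rw [key, map_add, e8]; abel
  rw [h4]
  refine (norm_sub_le _ _).trans ?_
  rw [norm_uni_apply hstar]
  have h5 : ‖ρ a (star (ρ v) (dc ξ ρ S x v))‖ ≤ ‖a‖ * ((e + ε) * ‖x‖) := by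
    refine ((ρ a).le_opNorm _).trans ?_
    rw [hS.norm a ha, norm_uni_apply hstar]
    exact mul_le_mul_of_nonneg_left b2 (norm_nonneg _)
  linarith [b1, h5]

/-- conjugation by the algebra -/
theorem good_left (hS : Std M ξ ρ) (hG : LFG M ξ G) {ε e : ℝ} (hε : 0 ≤ ε)
    (hCM : CM M ρ G c ε) (hc1 : ∀ x ∈ M, c x 1 = 0) {S : H →L[ℂ] H} (he : 0 ≤ e)
    (h : Good M ξ ρ c e S) {n : ℕ} {u : H →L[ℂ] H} (hu : u ∈ G n) :
    Good M ξ ρ c (2 * e + 2 * ε) (star u * S * u) := by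
  intro x hx a ha
  have huM := hG.mem n u hu
  have hsuM : star u ∈ M := star_mem huM
  have hsu := hG.su n u hu
  have hus := hG.us n u hu
  have hun : ‖u‖ ≤ 1 := norm_uni_le hsu
  have hstar : star (star u) * star u = 1 := by rw [star_star, hus]
  have hsun : ‖star u‖ ≤ 1 := norm_uni_le hstar
  have hxu : x * star u ∈ M := mul_mem hx hsuM
  have hx' : u * (x * star u) ∈ M := mul_mem huM hxu
  have hua : u * a ∈ M := mul_mem huM ha
  have nxu : ‖x * star u‖ ≤ ‖x‖ := (norm_mul_le _ _).trans (by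
      calc ‖x‖ * ‖star u‖ ≤ ‖x‖ * 1 := mul_le_mul_of_nonneg_left hsun (norm_nonneg _)
        _ = ‖x‖ := mul_one _)
  have nx' : ‖u * (x * star u)‖ ≤ ‖x‖ := (norm_mul_le _ _).trans (by
      calc ‖u‖ * ‖x * star u‖ ≤ 1 * ‖x‖ := mul_le_mul hun nxu (norm_nonneg _) zero_le_one
        _ = ‖x‖ := one_mul _)
  have nua : ‖u * a‖ ≤ ‖a‖ := (norm_mul_le _ _).trans (by
      calc ‖u‖ * ‖a‖ ≤ 1 * ‖a‖ := mul_le_mul_of_nonneg_right hun (norm_nonneg _)
        _ = ‖a‖ := one_mul _)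
  have e7 : ∀ w, star u (u w) = w := fun w => congrArg (fun T : H →L[ℂ] H => T w) hsu
  have e9 : ∀ w, star u (ρ a w) = ρ a (star u w) := fun w =>
    congrArg (fun T : H →L[ℂ] H => T w) (hS.comm a ha _ hsuM).symm
  have key : dc ξ ρ (star u * S * u) x a =
      star u (dc ξ ρ S (u * (x * star u)) (u * a)) -
        ρ a (star u (dc ξ ρ S (u * (x * star u)) u)) := by
    have e6 : ∀ w, ρ (u * a) w = ρ a (ρ u w) := fun w => by rw [hS.mul u huM a ha]; rfl
    rw [dc_expand, dc_expand, dc_expand]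
    show star u (S (u (x (a ξ)))) - x (star u (S (u (a ξ)))) -
        ρ a (star u (S (u (x ξ)))) + ρ a (x (star u (S (u ξ)))) =
      star u (S (u (x (star u (u (a ξ))))) - u (x (star u (S (u (a ξ))))) -
        ρ (u * a) (S (u (x (star u ξ)))) + ρ (u * a) (u (x (star u (S ξ))))) -
      ρ a (star u (S (u (x (star u (u ξ)))) - u (x (star u (S (u ξ)))) -
        ρ u (S (u (x (star u ξ)))) + ρ u (u (x (star u (S ξ))))))
    simp only [map_sub, map_add, e6, e7, e9]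
    abel
  have b1 : ‖dc ξ ρ S (u * (x * star u)) (u * a) + u (c x a)‖ ≤ (e + ε) * ‖x‖ * ‖a‖ := by
    have h1 := h _ hx' _ hua
    have h2 := hCM.mid n (star u) (hG.stm n u hu) x hx (u * a) hua
    have h3 := hCM.left n u hu _ hxu _ hua
    have h2' : star u * (u * a) = a := by rw [← mul_assoc, hsu, one_mul]
    rw [h2'] at h2
    have h4 : dc ξ ρ S (u * (x * star u)) (u * a) + u (c x a) =
        (c (u * (x * star u)) (u * a) + dc ξ ρ S (u * (x * star u)) (u * a)) -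
          u (c (x * star u) (u * a) - c x a) := by rw [h3, map_sub]; abel
    rw [h4]
    refine (norm_sub_le _ _).trans ?_
    rw [norm_uni_apply hsu]
    have h5 : e * ‖u * (x * star u)‖ * ‖u * a‖ ≤ e * ‖x‖ * ‖a‖ :=
      mul_le_mul (mul_le_mul_of_nonneg_left nx' he) nua (norm_nonneg _)
        (mul_nonneg he (norm_nonneg _))
    have h6 : ε * ‖x‖ * ‖u * a‖ ≤ ε * ‖x‖ * ‖a‖ :=
      mul_le_mul_of_nonneg_left nua (mul_nonneg hε (norm_nonneg _))
    linarith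
  have b2 : ‖dc ξ ρ S (u * (x * star u)) u‖ ≤ (e + ε) * ‖x‖ := by
    have h1 := h _ hx' _ huM
    have h2 := hCM.mid n (star u) (hG.stm n u hu) x hx u huM
    have h3 := hCM.left n u hu _ hxu _ huM
    rw [hsu, hc1 x hx, sub_zero] at h2
    have h4 : dc ξ ρ S (u * (x * star u)) u =
        (c (u * (x * star u)) u + dc ξ ρ S (u * (x * star u)) u) -
          u (c (x * star u) u) := by rw [h3]; abel
    rw [h4]
    refine (norm_sub_le _ _).trans ?_
    rw [norm_uni_apply hsu]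
    have h5 : e * ‖u * (x * star u)‖ * ‖u‖ ≤ e * ‖x‖ * 1 :=
      mul_le_mul (mul_le_mul_of_nonneg_left nx' he) hun (norm_nonneg _)
        (mul_nonneg he (norm_nonneg _))
    have h6 : ε * ‖x‖ * ‖u‖ ≤ ε * ‖x‖ * 1 :=
      mul_le_mul_of_nonneg_left hun (mul_nonneg hε (norm_nonneg _))
    linarith
  have h4 : c x a + dc ξ ρ (star u * S * u) x a =
      star u (dc ξ ρ S (u * (x * star u)) (u * a) + u (c x a)) -
        ρ a (star u (dc ξ ρ S (u * (x * star u)) u)) := by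
    rw [key, map_add, e7]; abel
  rw [h4]
  refine (norm_sub_le _ _).trans ?_
  rw [norm_uni_apply hstar]
  have h5 : ‖ρ a (star u (dc ξ ρ S (u * (x * star u)) u))‖ ≤ ‖a‖ * ((e + ε) * ‖x‖) := by
    refine ((ρ a).le_opNorm _).trans ?_
    rw [hS.norm a ha, norm_uni_apply hstar]
    exact mul_le_mul_of_nonneg_left b2 (norm_nonneg _)
  linarith [b1, h5]

end basics

/-- the conjugated operator -/
noncomputable def Suv {H : Type} [NormedAddCommGroup H] [InnerProductSpace ℂ H]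
    [CompleteSpace H] (ρ : (H →L[ℂ] H) → (H →L[ℂ] H)) (S : H →L[ℂ] H)
    (p : (H →L[ℂ] H) × (H →L[ℂ] H)) : H →L[ℂ] H :=
  star p.1 * (star (ρ p.2) * S * ρ p.2) * p.1

theorem avg : S_AVG := by
  refine ⟨10, by norm_num, ?_⟩
  intro H _ _ _ M ξ ρ G c S₀ A D ε hS hG hε hCM hc1 hA hD hgood
  classical
  have hξ : ‖ξ‖ = 1 := hS.unit
  have hone : ‖(1 : H →L[ℂ] H)‖ = 1 := by
    apply le_antisymm norm_one_le'
    have := (1 : H →L[ℂ] H).le_opNorm ξ
    rw [hξ, mul_one] at this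
    exact (hξ ▸ this : _)
  have hD0 : 0 ≤ D := by
    have := hD 1 (one_mem _)
    rw [hone, mul_one] at this
    exact (norm_nonneg _).trans this
  have hA0 : 0 ≤ A := (norm_nonneg _).trans hA
  -- the operators
  have hgood1 : ∀ n, ∀ p ∈ G n ×ˢ G n, Good M ξ ρ c (10 * ε) (Suv ρ S₀ p) := by
    intro n p hp
    rw [Finset.mem_product] at hp
    have h1 := good_right hS hG hε hCM hc1 hε (fun x hx a ha => hgood x hx a ha) hp.2
    have h2 := good_left hS hG hε hCM hc1 (by positivity) h1 hp.1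
    have h3 : 2 * (2 * ε + 2 * ε) + 2 * ε = 10 * ε := by ring
    rw [h3] at h2
    exact h2
  have hnorm1 : ∀ n, ∀ p ∈ G n ×ˢ G n, ‖Suv ρ S₀ p‖ ≤ A := by
    intro n p hp
    rw [Finset.mem_product] at hp
    have hu := hG.mem n _ hp.1
    have hv := hG.mem n _ hp.2
    have r1 := rho_uni hS hv (hG.us n _ hp.2)
    have r2 := rho_uni' hS hv (hG.su n _ hp.2)
    refine ContinuousLinearMap.opNorm_le_bound _ hA0 fun w => ?_
    show ‖star p.1 (star (ρ p.2) (S₀ (ρ p.2 (p.1 w))))‖ ≤ A * ‖w‖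
    rw [norm_uni_apply (by rw [star_star]; exact hG.us n _ hp.1),
      norm_uni_apply (by rw [star_star]; exact r2)]
    refine (S₀.le_opNorm _).trans ?_
    rw [norm_uni_apply r1, norm_uni_apply (hG.su n _ hp.1)]
    exact mul_le_mul_of_nonneg_right hA (norm_nonneg _)
  have hvec1 : ∀ n, ∀ p ∈ G n ×ˢ G n, ∀ a ∈ M, ‖Suv ρ S₀ p (a ξ)‖ ≤ D * ‖a‖ := by
    intro n p hp a ha
    rw [Finset.mem_product] at hp
    have hu := hG.mem n _ hp.1
    have hv := hG.mem n _ hp.2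
    have r1 := rho_uni hS hv (hG.us n _ hp.2)
    have r2 := rho_uni' hS hv (hG.su n _ hp.2)
    show ‖star p.1 (star (ρ p.2) (S₀ (ρ p.2 (p.1 (a ξ)))))‖ ≤ D * ‖a‖
    rw [norm_uni_apply (by rw [star_star]; exact hG.us n _ hp.1),
      norm_uni_apply (by rw [star_star]; exact r2)]
    have h1 : ρ p.2 (p.1 (a ξ)) = (p.1 * a * p.2) ξ := rho_apply hS hv (mul_mem hu ha)
    rw [h1]
    refine (hD _ (mul_mem (mul_mem hu ha) hv)).trans (mul_le_mul_of_nonneg_left ?_ hD0)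
    have n1 : ‖p.1‖ ≤ 1 := norm_uni_le (hG.su n _ hp.1)
    have n2 : ‖p.2‖ ≤ 1 := norm_uni_le (hG.su n _ hp.2)
    calc ‖p.1 * a * p.2‖ ≤ ‖p.1 * a‖ * ‖p.2‖ := norm_mul_le _ _
      _ ≤ (‖p.1‖ * ‖a‖) * ‖p.2‖ := mul_le_mul_of_nonneg_right (norm_mul_le _ _) (norm_nonneg _)
      _ ≤ (1 * ‖a‖) * 1 := mul_le_mul (mul_le_mul_of_nonneg_right n1 (norm_nonneg _)) n2
          (norm_nonneg _) (by positivity)
      _ = ‖a‖ := by ring
  let T : ℕ → (H →L[ℂ] H) := fun n =>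
    (((G n ×ˢ G n).card : ℂ))⁻¹ • ∑ p ∈ G n ×ˢ G n, Suv ρ S₀ p
  have hne : ∀ n, (G n ×ˢ G n).Nonempty := fun n =>
    ⟨(1, 1), Finset.mem_product.2 ⟨hG.one n, hG.one n⟩⟩
  have hTn : ∀ n, ‖T n‖ ≤ A := fun n => avg_norm _ (hne n) _ _ (hnorm1 n)
  have hTv : ∀ n, ∀ a ∈ M, ‖T n (a ξ)‖ ≤ D * ‖a‖ := by
    intro n a ha
    have h1 : T n (a ξ) = (((G n ×ˢ G n).card : ℂ))⁻¹ • ∑ p ∈ G n ×ˢ G n, Suv ρ S₀ p (a ξ) := by
      show ((((G n ×ˢ G n).card : ℂ))⁻¹ • ∑ p ∈ G n ×ˢ G n, Suv ρ S₀ p) (a ξ) = _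
      rw [smul_apply, ContinuousLinearMap.sum_apply]
    rw [h1]
    exact avg_norm _ (hne n) _ _ fun p hp => hvec1 n p hp a ha
  have hTg : ∀ n, Good M ξ ρ c (10 * ε) (T n) := by
    intro n x hx a ha
    have h1 : c x a + dc ξ ρ (T n) x a = (((G n ×ˢ G n).card : ℂ))⁻¹ •
        ∑ p ∈ G n ×ˢ G n, (c x a + dc ξ ρ (Suv ρ S₀ p) x a) := by
      rw [Finset.sum_add_distrib, smul_add, avg_const _ (hne n), ← dc_sum, ← dc_smul]
    rw [h1]
    exact avg_norm _ (hne n) _ _ fun p hp => hgood1 n p hp x hx a ha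
  have hTc : ∀ n, ∀ w ∈ G n, T n * w = w * T n := by
    intro n w hw
    have h1 : star w * T n * w = T n := by
      show star w * ((((G n ×ˢ G n).card : ℂ))⁻¹ • ∑ p ∈ G n ×ˢ G n, Suv ρ S₀ p) * w =
        (((G n ×ˢ G n).card : ℂ))⁻¹ • ∑ p ∈ G n ×ˢ G n, Suv ρ S₀ p
      rw [mul_smul_comm, smul_mul_assoc, Finset.mul_sum, Finset.sum_mul]
      congr 1
      refine Finset.sum_nbij' (fun p => (p.1 * w, p.2)) (fun p => (p.1 * star w, p.2)) ?_ ?_ ?_ ?_ ?_
      · intro p hp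
        rw [Finset.mem_product] at hp ⊢
        exact ⟨hG.mul n _ hp.1 _ hw, hp.2⟩
      · intro p hp
        rw [Finset.mem_product] at hp ⊢
        exact ⟨hG.mul n _ hp.1 _ (hG.stm n _ hw), hp.2⟩
      · intro p _
        show (p.1 * w * star w, p.2) = p
        rw [mul_assoc, hG.us n w hw, mul_one]
      · intro p _
        show (p.1 * star w * w, p.2) = p
        rw [mul_assoc, hG.su n w hw, mul_one]
      · intro p _
        show star w * (star p.1 * (star (ρ p.2) * S₀ * ρ p.2) * p.1) * w =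
          star (p.1 * w) * (star (ρ p.2) * S₀ * ρ p.2) * (p.1 * w)
        rw [star_mul]
        noncomm_ring
    calc T n * w = (w * star w) * (T n * w) := by rw [hG.us n w hw, one_mul]
      _ = w * (star w * T n * w) := by noncomm_ring
      _ = w * T n := by rw [h1]
  have hTr : ∀ n, ∀ w ∈ G n, T n * ρ w = ρ w * T n := by
    intro n w hw
    have hwM := hG.mem n w hw
    have h1 : star (ρ w) * T n * ρ w = T n := by
      show star (ρ w) * ((((G n ×ˢ G n).card : ℂ))⁻¹ • ∑ p ∈ G n ×ˢ G n, Suv ρ S₀ p) * ρ w =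
        (((G n ×ˢ G n).card : ℂ))⁻¹ • ∑ p ∈ G n ×ˢ G n, Suv ρ S₀ p
      rw [mul_smul_comm, smul_mul_assoc, Finset.mul_sum, Finset.sum_mul]
      congr 1
      refine Finset.sum_nbij' (fun p => (p.1, w * p.2)) (fun p => (p.1, star w * p.2)) ?_ ?_ ?_ ?_ ?_
      · intro p hp
        rw [Finset.mem_product] at hp ⊢
        exact ⟨hp.1, hG.mul n _ hw _ hp.2⟩
      · intro p hp
        rw [Finset.mem_product] at hp ⊢
        exact ⟨hp.1, hG.mul n _ (hG.stm n _ hw) _ hp.2⟩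
      · intro p _
        show (p.1, star w * (w * p.2)) = p
        rw [← mul_assoc, hG.su n w hw, one_mul]
      · intro p _
        show (p.1, w * (star w * p.2)) = p
        rw [← mul_assoc, hG.us n w hw, one_mul]
      · intro p hp
        rw [Finset.mem_product] at hp
        have hu := hG.mem n _ hp.1
        have hv := hG.mem n _ hp.2
        show star (ρ w) * (star p.1 * (star (ρ p.2) * S₀ * ρ p.2) * p.1) * ρ w =
          star p.1 * (star (ρ (w * p.2)) * S₀ * ρ (w * p.2)) * p.1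
        have e1 : star (ρ w) * star p.1 = star p.1 * star (ρ w) := by
          rw [← hS.stm w hwM]; exact hS.comm _ (star_mem hwM) _ (star_mem hu)
        have e2 : p.1 * ρ w = ρ w * p.1 := (hS.comm w hwM _ hu).symm
        rw [hS.mul w hwM _ hv, star_mul]
        calc star (ρ w) * (star p.1 * (star (ρ p.2) * S₀ * ρ p.2) * p.1) * ρ w
            = (star (ρ w) * star p.1) * (star (ρ p.2) * S₀ * ρ p.2) * (p.1 * ρ w) := by
              noncomm_ring
          _ = (star p.1 * star (ρ w)) * (star (ρ p.2) * S₀ * ρ p.2) * (ρ w * p.1) := by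
              rw [e1, e2]
          _ = star p.1 * (star (ρ w) * star (ρ p.2) * S₀ * (ρ p.2 * ρ w)) * p.1 := by
              noncomm_ring
    have r2 := rho_uni' hS hwM (hG.su n w hw)
    calc T n * ρ w = (ρ w * star (ρ w)) * (T n * ρ w) := by rw [r2, one_mul]
      _ = ρ w * (star (ρ w) * T n * ρ w) := by noncomm_ring
      _ = ρ w * T n := by rw [h1]
  -- the limit
  let U : Ultrafilter ℕ := hyperfilter ℕ
  have hU : (U : Filter ℕ) ≤ atTop := by
    have := hyperfilter_le_cofinite (α := ℕ)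
    rwa [Nat.cofinite_eq_atTop] at this
  obtain ⟨S, hSl⟩ := Pool.Agent.W663.KK.exists_wlim U T A hTn
  have hlim : ∀ (B C : H →L[ℂ] H), (∀ᶠ n in atTop, T n * B = C * T n) → S * B = C * S := by
    intro B C hBC
    ext y
    refine ext_inner_left ℂ fun v => ?_
    have l1 : Tendsto (fun n => ⟪v, T n (B y)⟫_ℂ) U (𝓝 ⟪v, S (B y)⟫_ℂ) := hSl v (B y)
    have l2 : Tendsto (fun n => ⟪v, C (T n y)⟫_ℂ) U (𝓝 ⟪v, C (S y)⟫_ℂ) := by
      have := hSl (ContinuousLinearMap.adjoint C v) y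
      simpa only [ContinuousLinearMap.adjoint_inner_left] using this
    refine tendsto_nhds_unique l1 (l2.congr' ?_)
    filter_upwards [hU hBC] with n hn
    exact (congrArg (fun Z : H →L[ℂ] H => ⟪v, Z y⟫_ℂ) hn).symm
  refine ⟨S, ?_, ?_, ?_, ?_, ?_⟩
  · refine ContinuousLinearMap.opNorm_le_bound _ hA0 fun w => ?_
    exact wlim_norm U (fun n => T n w) (S w) _ (fun v => hSl v w)
      fun n => ((T n).le_opNorm w).trans (mul_le_mul_of_nonneg_right (hTn n) (norm_nonneg _))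
  · intro a ha
    exact wlim_norm U (fun n => T n (a ξ)) (S (a ξ)) _ (fun v => hSl v (a ξ))
      fun n => hTv n a ha
  · intro m u hu
    refine hlim u u ?_
    filter_upwards [eventually_ge_atTop m] with n hn
    exact hTc n u (hG.mono hn hu)
  · intro m u hu
    refine hlim (ρ u) (ρ u) ?_
    filter_upwards [eventually_ge_atTop m] with n hn
    exact hTr n u (hG.mono hn hu)
  · intro x hx a ha
    refine wlim_norm U (fun n => c x a + dc ξ ρ (T n) x a) _ _ (fun v => ?_)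
      fun n => hTg n x hx a ha
    simp only [dc_expand, inner_add_right, inner_sub_right]
    have l1 := hSl v (x (a ξ))
    have l2 : Tendsto (fun n => ⟪v, x (T n (a ξ))⟫_ℂ) U (𝓝 ⟪v, x (S (a ξ))⟫_ℂ) := by
      have := hSl (ContinuousLinearMap.adjoint x v) (a ξ)
      simpa only [ContinuousLinearMap.adjoint_inner_left] using this
    have l3 : Tendsto (fun n => ⟪v, ρ a (T n (x ξ))⟫_ℂ) U (𝓝 ⟪v, ρ a (S (x ξ))⟫_ℂ) := by
      have := hSl (ContinuousLinearMap.adjoint (ρ a) v) (x ξ)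
      simpa only [ContinuousLinearMap.adjoint_inner_left] using this
    have l4 : Tendsto (fun n => ⟪v, ρ a (x (T n ξ))⟫_ℂ) U (𝓝 ⟪v, ρ a (x (S ξ))⟫_ℂ) := by
      have := hSl (ContinuousLinearMap.adjoint x (ContinuousLinearMap.adjoint (ρ a) v)) ξ
      simpa only [ContinuousLinearMap.adjoint_inner_left] using this
    exact tendsto_const_nhds.add (((l1.sub l2).sub l3).add l4)

end Pool.Agent.W475.KKS
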