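import Mathlib
import Pool.Agent.W662.KKS.Stmts
import Pool.Agent.Helper278.Factor

set_option autoImplicit false

open scoped InnerProductSpace ComplexOrder
open Pool.Agent.Helper278

namespace Pool.Agent.W475.KKS

open Pool.Agent.W662.KKS

theorem cmp : S_CMP := by
  intro H _ _ _ M ξ hM p hpM hp hpp hhalf
  have hqM : (1 - p) ∈ M := sub_mem (one_mem _) hpM
  have hq : star (1 - p) = 1 - p := by rw [star_sub, star_one, hp]
  have hqq : (1 - p) * (1 - p) = 1 - p := by
    have : (1 - p) * (1 - p) = 1 - p - p + p * p := by noncomm_ring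
    rw [this, hpp]; abel
  obtain ⟨w, hwN, hw1, hqp, hext⟩ := exists_extreme_corner M (1 - p) p
  have hpi := extreme_partial' M hwN hqq hpp hq hw1 hqp hext
  have hcor := extreme_corner' M hwN hqM hpM hq hqq hpp hp hqp hpi hext
  have hsw : star w ∈ M := star_mem hwN
  have hwq : w * (1 - p) = w := by
    calc w * (1 - p) = p * w * (1 - p) * (1 - p) := by rw [hqp]
      _ = p * w * ((1 - p) * (1 - p)) := by rw [mul_assoc (p * w)]
      _ = w := by rw [hqq, hqp]
  have hpw : p * w = w := by
    calc p * w = p * (p * w * (1 - p)) := by rw [hqp]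
      _ = (p * p) * w * (1 - p) := by noncomm_ring
      _ = w := by rw [hpp, hqp]
  have hqw : (1 - p) * star w = star w := by
    have := congrArg star hwq
    rwa [star_mul, hq] at this
  have e1 : star w * w * star w = star w := by
    have := congrArg star hpi
    rwa [star_mul, star_mul, star_star] at this
  have hf : star (1 - p - star w * w) * (1 - p - star w * w) = 1 - p - star w * w := by
    have h1 : star w * w * (star w * w) = star w * w := by rw [← mul_assoc, e1]
    have h2 : (1 - p) * (star w * w) = star w * w := by rw [← mul_assoc, hqw]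
    have h3 : star w * w * (1 - p) = star w * w := by rw [mul_assoc, hwq]
    rw [star_sub, hq, star_mul, star_star]
    calc (1 - p - star w * w) * (1 - p - star w * w) =
        (1 - p) * (1 - p) - (1 - p) * (star w * w) - star w * w * (1 - p)
          + star w * w * (star w * w) := by noncomm_ring
      _ = 1 - p - star w * w := by rw [h1, h2, h3, hqq]; abel
  have htr : ⟪ξ, (star w * w) ξ⟫_ℂ = ⟪ξ, (w * star w) ξ⟫_ℂ :=
    hM.trace.tracial ⟨star w, hsw⟩ ⟨w, hwN⟩
  have hone : ⟪ξ, ξ⟫_ℂ = 1 := by
    have := hM.trace.one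
    simpa using this
  have hor := factor_corner M hM.center (p - w * star w) (1 - p - star w * w)
    (sub_mem hpM (mul_mem hwN hsw)) (sub_mem hqM (mul_mem hsw hwN)) hcor
  refine ⟨w, hwN, ?_, hpw⟩
  rcases hor with h0 | h0
  · have hw : w * star w = p := (sub_eq_zero.1 h0).symm
    rw [hw] at htr
    have hval : ⟪ξ, (1 - p - star w * w) ξ⟫_ℂ = 1 - 2 * ⟪ξ, p ξ⟫_ℂ := by
      have : (1 - p - star w * w) ξ = ξ - p ξ - (star w * w) ξ := rfl
      rw [this, inner_sub_right, inner_sub_right, htr, hone]; ring
    have hnn : ⟪ξ, (1 - p - star w * w) ξ⟫_ℂ = ((‖(1 - p - star w * w) ξ‖ ^ 2 : ℝ) : ℂ) := by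
      conv_lhs => rw [← hf]
      show ⟪ξ, (star (1 - p - star w * w)) ((1 - p - star w * w) ξ)⟫_ℂ = _
      rw [ContinuousLinearMap.star_eq_adjoint, ContinuousLinearMap.adjoint_inner_right,
        inner_self_eq_norm_sq_to_K]
      norm_cast
    have hre : ‖(1 - p - star w * w) ξ‖ ^ 2 = 1 - 2 * (⟪ξ, p ξ⟫_ℂ).re := by
      have := congrArg Complex.re (hnn.symm.trans hval)
      rw [Complex.ofReal_re] at this
      rw [this]
      simp
    have hz : ‖(1 - p - star w * w) ξ‖ ^ 2 = 0 := by
      apply le_antisymm _ (sq_nonneg _)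
      rw [hre]; linarith
    have hz0 : (⟨1 - p - star w * w, sub_mem hqM (mul_mem hsw hwN)⟩ : Elt M) = 0 := by
      apply hM.trace.faithful
      show ⟪ξ, (star (1 - p - star w * w) * (1 - p - star w * w)) ξ⟫_ℂ = 0
      rw [hf, hnn, hz]; simp
    have := congrArg Subtype.val hz0
    exact (sub_eq_zero.1 this).symm
  · exact (sub_eq_zero.1 h0).symm

end Pool.Agent.W475.KKS
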